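import Pool.Agent.Helper90.VS.Defs

/-!
# MP_539ca6_an, request R5: the abstract local corner lemma
-/

open MeasureTheory Set Filter Topology

namespace Pool.Agent.Helper54.VSCorner

open Pool.Agent.Helper90.VS

/-- The hypotheses of `local_corner`, bundled. -/
structure LC (H HX HT : ℝ → ℝ → ℝ) (β a : ℝ → ℝ) (C c ρ₀ δ : ℝ) : Prop where
  hC : 0 < C
  hc : 0 < c
  hρ₀ : 0 < ρ₀
  hδ : 0 < δ
  hH : ∀ X t, HasFDerivAt (fun q : ℝ × ℝ => H q.1 q.2)
      (HX X t • ContinuousLinearMap.fst ℝ ℝ ℝ + HT X t • ContinuousLinearMap.snd ℝ ℝ ℝ) (X, t)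
  hHX : Continuous (fun q : ℝ × ℝ => HX q.1 q.2)
  hHT : Continuous (fun q : ℝ × ℝ => HT q.1 q.2)
  h00 : H 0 0 = 0
  hX : ∀ X t, 0 < X ^ 2 + t ^ 2 → √(X ^ 2 + t ^ 2) ≤ ρ₀ →
      |HX X t - X * β (√(X ^ 2 + t ^ 2))| ≤ C * √(X ^ 2 + t ^ 2)
  hT : ∀ X t, 0 < X ^ 2 + t ^ 2 → √(X ^ 2 + t ^ 2) ≤ ρ₀ →
      |HT X t + t * β (√(X ^ 2 + t ^ 2))| ≤ C * √(X ^ 2 + t ^ 2)
  hβ : ∀ r s, 0 < r → r ≤ ρ₀ → 0 < s → s ≤ 1 → |β (s * r) - β r| ≤ Real.log (1 / s)
  ha : Prof a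
  hneg : ∀ X t, 0 ≤ X → t ∈ Icc (0:ℝ) 10 → X < a t → H X t < 0
  hpos : ∀ X t, X ≤ Real.pi → t ∈ Icc (0:ℝ) 10 → a t < X → 0 < H X t
  h8 : ∀ X t, X ∈ Icc 0 Real.pi → t ∈ Icc (0:ℝ) 10 → c * (1 - Real.cos X) ≤ H X t - H 0 t
  h9 : ∀ t ∈ Icc 0 δ, H 0 t ≤ -(c * t ^ 2)
  h10 : ∀ X, 0 < X → X ≤ 1 →
      c * X ^ 2 * ∫ τ in X..1, Real.sin (a τ) / (τ ^ 2 + X ^ 2 + (a τ) ^ 2) ≤ H X 0

variable {H HX HT : ℝ → ℝ → ℝ} {β a : ℝ → ℝ} {C c ρ₀ δ : ℝ}

namespace LC

lemma deriv_curve (h : LC H HX HT β a C c ρ₀ δ) {u v : ℝ → ℝ} {u' v' s : ℝ}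
    (hu : HasDerivAt u u' s) (hv : HasDerivAt v v' s) :
    HasDerivAt (fun s => H (u s) (v s)) (HX (u s) (v s) * u' + HT (u s) (v s) * v') s := by
  have h1 := (h.hH (u s) (v s)).comp_hasDerivAt s (hu.prodMk hv)
  have h2 : (HX (u s) (v s) • ContinuousLinearMap.fst ℝ ℝ ℝ
      + HT (u s) (v s) • ContinuousLinearMap.snd ℝ ℝ ℝ) (u', v')
      = HX (u s) (v s) * u' + HT (u s) (v s) * v' := by simp
  rw [h2] at h1
  exact h1

lemma cont (h : LC H HX HT β a C c ρ₀ δ) : Continuous (fun q : ℝ × ℝ => H q.1 q.2) :=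
  continuous_iff_continuousAt.2 fun q => (h.hH q.1 q.2).continuousAt

/-- (E): expansion along rays -/
lemma ray (h : LC H HX HT β a C c ρ₀ δ) {X t : ℝ} (h0 : 0 < X ^ 2 + t ^ 2)
    (hr : √(X ^ 2 + t ^ 2) ≤ ρ₀) :
    |H X t - β (√(X ^ 2 + t ^ 2)) * (X ^ 2 - t ^ 2) / 2| ≤ (1 + 2 * C) * (X ^ 2 + t ^ 2) := by
  set r := √(X ^ 2 + t ^ 2) with hrdef
  have hrpos : 0 < r := Real.sqrt_pos.2 h0
  have hrsq : r ^ 2 = X ^ 2 + t ^ 2 := Real.sq_sqrt h0.le
  set D := β r * (X ^ 2 - t ^ 2) / 2 with hD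
  have hder : ∀ s : ℝ, HasDerivAt (fun s => H (s * X) (s * t) - s ^ 2 * D)
      (HX (s * X) (s * t) * X + HT (s * X) (s * t) * t - 2 * s * D) s := by
    intro s
    have hu : HasDerivAt (fun s : ℝ => s * X) X s := by simpa using (hasDerivAt_id s).mul_const X
    have hv : HasDerivAt (fun s : ℝ => s * t) t s := by simpa using (hasDerivAt_id s).mul_const t
    have h2 : HasDerivAt (fun s : ℝ => s ^ 2 * D) (2 * s * D) s := by
      simpa using (hasDerivAt_pow 2 s).mul_const D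
    exact (h.deriv_curve hu hv).sub h2
  obtain ⟨ξ, hξ, he⟩ := exists_hasDerivAt_eq_slope (fun s => H (s * X) (s * t) - s ^ 2 * D)
    (fun s => HX (s * X) (s * t) * X + HT (s * X) (s * t) * t - 2 * s * D)
    (zero_lt_one) (fun s hs => (hder s).continuousAt.continuousWithinAt) (fun s hs => hder s)
  have he' : H X t - D = HX (ξ * X) (ξ * t) * X + HT (ξ * X) (ξ * t) * t - 2 * ξ * D := by
    rw [he]; simp [h.h00]
  rw [he']
  have hsq : (ξ * X) ^ 2 + (ξ * t) ^ 2 = (ξ * r) ^ 2 := by rw [mul_pow, mul_pow, mul_pow, hrsq]; ring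
  have hξr : 0 < ξ * r := mul_pos hξ.1 hrpos
  have hs : √((ξ * X) ^ 2 + (ξ * t) ^ 2) = ξ * r := by rw [hsq, Real.sqrt_sq hξr.le]
  have hle : ξ * r ≤ ρ₀ := by nlinarith [hξ.2]
  have e1 := h.hX (ξ * X) (ξ * t) (by rw [hsq]; positivity) (by rw [hs]; exact hle)
  have e2 := h.hT (ξ * X) (ξ * t) (by rw [hsq]; positivity) (by rw [hs]; exact hle)
  rw [hs] at e1 e2
  have e3 := h.hβ r ξ hrpos hr hξ.1 hξ.2.le
  have hlog : ξ * Real.log (1 / ξ) ≤ 1 := by
    have := Real.log_le_sub_one_of_pos (one_div_pos.2 hξ.1)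
    calc ξ * Real.log (1 / ξ) ≤ ξ * (1 / ξ - 1) := mul_le_mul_of_nonneg_left this hξ.1.le
      _ = 1 - ξ := by field_simp [hξ.1.ne']
      _ ≤ 1 := by linarith [hξ.1]
  have hXr : |X| ≤ r := Real.abs_le_sqrt (by nlinarith [sq_nonneg t])
  have htr : |t| ≤ r := Real.abs_le_sqrt (by nlinarith [sq_nonneg X])
  set E1 := HX (ξ * X) (ξ * t) - ξ * X * β (ξ * r) with hE1
  set E2 := HT (ξ * X) (ξ * t) + ξ * t * β (ξ * r) with hE2
  have hid : HX (ξ * X) (ξ * t) * X + HT (ξ * X) (ξ * t) * t - 2 * ξ * D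
      = E1 * X + E2 * t + (X ^ 2 - t ^ 2) * (ξ * (β (ξ * r) - β r)) := by
    rw [hE1, hE2, hD]; ring
  rw [hid]
  have hCr : 0 ≤ C * (ξ * r) := (mul_pos h.hC hξr).le
  have hCr2 : (C * (ξ * r)) * r ≤ C * r ^ 2 := by
    have h1 : ξ * (C * (r * r)) ≤ 1 * (C * (r * r)) :=
      mul_le_mul_of_nonneg_right hξ.2.le (mul_pos h.hC (mul_pos hrpos hrpos)).le
    calc (C * (ξ * r)) * r = ξ * (C * (r * r)) := by ring
      _ ≤ 1 * (C * (r * r)) := h1
      _ = C * r ^ 2 := by ring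
  have b1 : |E1 * X| ≤ C * r ^ 2 := by
    rw [abs_mul]
    exact (mul_le_mul e1 hXr (abs_nonneg _) hCr).trans hCr2
  have b2 : |E2 * t| ≤ C * r ^ 2 := by
    rw [abs_mul]
    exact (mul_le_mul e2 htr (abs_nonneg _) hCr).trans hCr2
  have b3 : |(X ^ 2 - t ^ 2) * (ξ * (β (ξ * r) - β r))| ≤ r ^ 2 := by
    rw [abs_mul, abs_mul, abs_of_pos hξ.1]
    have h1 : |X ^ 2 - t ^ 2| ≤ r ^ 2 := by
      rw [hrsq, abs_le]; constructor <;> nlinarith [sq_nonneg X, sq_nonneg t]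
    have h2 : ξ * |β (ξ * r) - β r| ≤ 1 :=
      (mul_le_mul_of_nonneg_left e3 hξ.1.le).trans hlog
    calc |X ^ 2 - t ^ 2| * (ξ * |β (ξ * r) - β r|) ≤ r ^ 2 * 1 :=
          mul_le_mul h1 h2 (by have := hξ.1.le; positivity) (by positivity)
      _ = r ^ 2 := mul_one _
  calc |E1 * X + E2 * t + (X ^ 2 - t ^ 2) * (ξ * (β (ξ * r) - β r))|
      ≤ |E1 * X + E2 * t| + |(X ^ 2 - t ^ 2) * (ξ * (β (ξ * r) - β r))| := abs_add_le _ _
    _ ≤ |E1 * X| + |E2 * t| + |(X ^ 2 - t ^ 2) * (ξ * (β (ξ * r) - β r))| := by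
        gcongr; exact abs_add_le _ _
    _ ≤ C * r ^ 2 + C * r ^ 2 + r ^ 2 := by gcongr
    _ = (1 + 2 * C) * (X ^ 2 + t ^ 2) := by rw [← hrsq]; ring

lemma cmp (h : LC H HX HT β a C c ρ₀ δ) {t r : ℝ} (ht : 0 < t) (htr : t ≤ r) (hr : r ≤ ρ₀) :
    |β t - β r| ≤ r / t := by
  have hr0 : 0 < r := ht.trans_le htr
  have h1 := h.hβ r (t / r) hr0 hr (div_pos ht hr0) ((div_le_one hr0).2 htr)
  rw [div_mul_cancel₀ _ hr0.ne'] at h1
  refine h1.trans ?_
  rw [one_div_div]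
  have := Real.log_le_sub_one_of_pos (div_pos hr0 ht)
  linarith

lemma le_of_nonneg (h : LC H HX HT β a C c ρ₀ δ) {X t : ℝ} (hX : 0 ≤ X)
    (ht : t ∈ Icc (0:ℝ) 10) (hH : 0 ≤ H X t) : a t ≤ X := by
  by_contra hcon
  exact absurd (h.hneg X t hX ht (not_le.1 hcon)) (not_lt.2 hH)

lemma ge_of_nonpos (h : LC H HX HT β a C c ρ₀ δ) {X t : ℝ} (hX : X ≤ Real.pi)
    (ht : t ∈ Icc (0:ℝ) 10) (hH : H X t ≤ 0) : X ≤ a t := by
  by_contra hcon
  exact absurd (h.hpos X t hX ht (not_le.1 hcon)) (not_lt.2 hH)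

/-- sizes of `r` at the point `(l t, t)` -/
lemma rad {l t : ℝ} (hl : 0 ≤ l) (ht : 0 < t) :
    0 < (l * t) ^ 2 + t ^ 2 ∧ t ≤ √((l * t) ^ 2 + t ^ 2) ∧ √((l * t) ^ 2 + t ^ 2) ≤ (l + 1) * t := by
  refine ⟨by positivity, ?_, ?_⟩
  · exact Real.le_sqrt_of_sq_le (by nlinarith [sq_nonneg (l * t)])
  · rw [Real.sqrt_le_left (by positivity)]
    nlinarith [mul_nonneg hl (mul_pos ht ht).le]

lemma ray2 (h : LC H HX HT β a C c ρ₀ δ) {l t : ℝ} (hl : 0 ≤ l) (ht : 0 < t)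
    (hr : (l + 1) * t ≤ ρ₀) :
    |H (l * t) t - β t * ((l ^ 2 - 1) / 2) * t ^ 2| ≤ (2 + 2 * C + l) * (l ^ 2 + 1) * t ^ 2 := by
  obtain ⟨h0, h1, h2⟩ := rad hl ht
  have h3 := h.ray h0 (h2.trans hr)
  set r := √((l * t) ^ 2 + t ^ 2)
  have h4 := h.cmp ht h1 (h2.trans hr)
  have h5 : |β t - β r| ≤ l + 1 := h4.trans (by rw [div_le_iff₀ ht]; exact h2)
  have hid : H (l * t) t - β t * ((l ^ 2 - 1) / 2) * t ^ 2
      = (H (l * t) t - β r * ((l * t) ^ 2 - t ^ 2) / 2)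
        + (β r - β t) * ((l ^ 2 - 1) / 2 * t ^ 2) := by ring
  rw [hid]
  have h6 : |(β r - β t) * ((l ^ 2 - 1) / 2 * t ^ 2)| ≤ (l + 1) * ((l ^ 2 + 1) * t ^ 2) := by
    rw [abs_mul, abs_sub_comm]
    refine mul_le_mul h5 ?_ (abs_nonneg _) (by positivity)
    rw [abs_le]
    constructor <;> nlinarith [sq_nonneg (l * t), sq_nonneg t]
  refine (abs_add_le _ _).trans ((add_le_add h3 h6).trans (le_of_eq ?_))
  ring

/-- (a): cone bounds -/
lemma cone (h : LC H HX HT β a C c ρ₀ δ) : ∃ ε K d : ℝ, 0 < ε ∧ ε ≤ 1 ∧ 2 ≤ K ∧ 0 < d ∧ d ≤ 1 ∧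
    d ≤ δ ∧ K * d ≤ Real.pi / 2 ∧ (K + 1) * d ≤ ρ₀ ∧
    ∀ t, 0 < t → t ≤ d → ε * t ≤ a t ∧ a t ≤ K * t := by
  have hC := h.hC
  have hc := h.hc
  have hpi := Real.pi_pos
  have hKex : ∃ K : ℝ, 2 ≤ K ∧ 10 + 6 * C ≤ c * (2 / Real.pi ^ 2) * K ^ 2 := by
    refine ⟨2 + Real.pi ^ 2 * (10 + 6 * C) / (2 * c), by
      have : 0 ≤ Real.pi ^ 2 * (10 + 6 * C) / (2 * c) := by positivity
      linarith, ?_⟩
    set K := 2 + Real.pi ^ 2 * (10 + 6 * C) / (2 * c) with hK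
    have hK1 : 1 ≤ K := by
      have : 0 ≤ Real.pi ^ 2 * (10 + 6 * C) / (2 * c) := by positivity
      linarith
    have hK2 : Real.pi ^ 2 * (10 + 6 * C) / (2 * c) ≤ K := by rw [hK]; linarith
    have hcp : 0 < c * (2 / Real.pi ^ 2) := by positivity
    calc 10 + 6 * C = c * (2 / Real.pi ^ 2) * (Real.pi ^ 2 * (10 + 6 * C) / (2 * c)) := by
          field_simp
      _ ≤ c * (2 / Real.pi ^ 2) * K := mul_le_mul_of_nonneg_left hK2 hcp.le
      _ ≤ c * (2 / Real.pi ^ 2) * K ^ 2 := mul_le_mul_of_nonneg_left (by nlinarith) hcp.le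
  obtain ⟨K, hK2, hKc⟩ := hKex
  have hεex : ∃ ε : ℝ, 0 < ε ∧ ε ≤ 1 / 2 ∧ ε * (18 + 10 * C) ≤ c := by
    refine ⟨min (1 / 2) (c / (18 + 10 * C)), by positivity, min_le_left _ _, ?_⟩
    have h1 : min (1 / 2) (c / (18 + 10 * C)) ≤ c / (18 + 10 * C) := min_le_right _ _
    calc min (1 / 2) (c / (18 + 10 * C)) * (18 + 10 * C) ≤ c / (18 + 10 * C) * (18 + 10 * C) :=
          mul_le_mul_of_nonneg_right h1 (by positivity)
      _ = c := by field_simp
  obtain ⟨ε, hε0, hε1, hεc⟩ := hεex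
  have hK0 : 0 < K := by linarith
  have hdex : ∃ d : ℝ, 0 < d ∧ d ≤ 1 ∧ d ≤ δ ∧ K * d ≤ Real.pi / 2 ∧ (K + 1) * d ≤ ρ₀ := by
    refine ⟨min (min 1 δ) (min (Real.pi / 2 / K) (ρ₀ / (K + 1))), ?_, ?_, ?_, ?_, ?_⟩
    · have := h.hδ; have := h.hρ₀; positivity
    · exact (min_le_left _ _).trans (min_le_left _ _)
    · exact (min_le_left _ _).trans (min_le_right _ _)
    · calc _ ≤ K * (Real.pi / 2 / K) := mul_le_mul_of_nonneg_left
            ((min_le_right _ _).trans (min_le_left _ _)) hK0.le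
        _ = Real.pi / 2 := by field_simp
    · calc _ ≤ (K + 1) * (ρ₀ / (K + 1)) := mul_le_mul_of_nonneg_left
            ((min_le_right _ _).trans (min_le_right _ _)) (by positivity)
        _ = ρ₀ := by field_simp
  obtain ⟨d, hd0, hd1, hdδ, hdπ, hdρ⟩ := hdex
  refine ⟨ε, K, d, hε0, by linarith, hK2, hd0, hd1, hdδ, hdπ, hdρ, ?_⟩
  intro t ht htd
  have ht10 : t ∈ Icc (0:ℝ) 10 := ⟨ht.le, by linarith⟩
  have ht2 : 0 < t ^ 2 := by positivity
  have hKt : K * t ≤ Real.pi / 2 := (mul_le_mul_of_nonneg_left htd hK0.le).trans hdπ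
  have hKρ : (K + 1) * t ≤ ρ₀ := (mul_le_mul_of_nonneg_left htd (by positivity)).trans hdρ
  have h3ρ : (2 + 1) * t ≤ ρ₀ := le_trans (mul_le_mul_of_nonneg_right (by linarith) ht.le) hKρ
  by_cases hb : 16 + 8 * C ≤ β t
  · constructor
    · have h1 := h.ray2 (l := 1 / 2) (by norm_num) ht (by nlinarith)
      have h2 : H (1 / 2 * t) t ≤ 0 := by
        have h3 := (abs_le.1 h1).2
        have h4 : (16 + 8 * C) * t ^ 2 ≤ β t * t ^ 2 := mul_le_mul_of_nonneg_right hb ht2.le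
        nlinarith [mul_pos hC ht2]
      have h5 := h.ge_of_nonpos (X := 1 / 2 * t) (by nlinarith) ht10 h2
      nlinarith
    · have h1 := h.ray2 (l := 2) (by norm_num) ht (by nlinarith)
      have h2 : 0 ≤ H (2 * t) t := by
        have h3 := (abs_le.1 h1).1
        have h4 : (16 + 8 * C) * t ^ 2 ≤ β t * t ^ 2 := mul_le_mul_of_nonneg_right hb ht2.le
        nlinarith [mul_pos hC ht2]
      have h5 := h.le_of_nonneg (X := 2 * t) (by positivity) ht10 h2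
      nlinarith
  · push Not at hb
    constructor
    · -- lower bound by the mean value theorem
      have hder : ∀ X : ℝ, HasDerivAt (fun X => H X t) (HX X t) X := by
        intro X
        have := h.deriv_curve (hasDerivAt_id X) (hasDerivAt_const X t)
        simpa using this
      have hεt : 0 < ε * t := mul_pos hε0 ht
      obtain ⟨ξ, hξ, he⟩ := exists_hasDerivAt_eq_slope (fun X => H X t) (fun X => HX X t) hεt
        (fun s hs => (hder s).continuousAt.continuousWithinAt) (fun s hs => hder s)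
      have he' : H (ε * t) t = H 0 t + HX ξ t * (ε * t) := by
        rw [he]; field_simp; ring
      have hξt : ξ ≤ t := by nlinarith [hξ.2]
      have hr0 : 0 < ξ ^ 2 + t ^ 2 := by positivity
      have hr1 : t ≤ √(ξ ^ 2 + t ^ 2) := Real.le_sqrt_of_sq_le (by nlinarith [sq_nonneg ξ])
      have hr2 : √(ξ ^ 2 + t ^ 2) ≤ 2 * t := by
        rw [Real.sqrt_le_left (by positivity)]
        nlinarith [hξ.1]
      have hrρ : √(ξ ^ 2 + t ^ 2) ≤ ρ₀ := hr2.trans (by nlinarith)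
      have e1 := h.hX ξ t hr0 hrρ
      have e2 := h.cmp ht hr1 hrρ
      set r := √(ξ ^ 2 + t ^ 2)
      have e3 : β r ≤ 18 + 8 * C := by
        have e4 : r / t ≤ 2 := by rw [div_le_iff₀ ht]; exact hr2
        have := (abs_le.1 e2).1
        linarith
      have e5 : HX ξ t ≤ ε * t * (18 + 8 * C) + 2 * C * t := by
        have e6 := (abs_le.1 e1).2
        have e7 : ξ * β r ≤ ξ * (18 + 8 * C) := mul_le_mul_of_nonneg_left e3 hξ.1.le
        have e8 : ξ * (18 + 8 * C) ≤ ε * t * (18 + 8 * C) :=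
          mul_le_mul_of_nonneg_right hξ.2.le (by positivity)
        have e9 : C * r ≤ C * (2 * t) := mul_le_mul_of_nonneg_left hr2 hC.le
        linarith
      have e10 := h.h9 t ⟨ht.le, htd.trans hdδ⟩
      have e11 : HX ξ t * (ε * t) ≤ (ε * t * (18 + 8 * C) + 2 * C * t) * (ε * t) :=
        mul_le_mul_of_nonneg_right e5 hεt.le
      have e12 : (ε * t * (18 + 8 * C) + 2 * C * t) * (ε * t)
          = t ^ 2 * (ε * (ε * (18 + 8 * C) + 2 * C)) := by ring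
      have e13 : ε * (ε * (18 + 8 * C) + 2 * C) ≤ c := by
        calc ε * (ε * (18 + 8 * C) + 2 * C) ≤ ε * (1 * (18 + 8 * C) + 2 * C) := by
              refine mul_le_mul_of_nonneg_left ?_ hε0.le
              have : ε * (18 + 8 * C) ≤ 1 * (18 + 8 * C) :=
                mul_le_mul_of_nonneg_right (by linarith) (by positivity)
              linarith
          _ = ε * (18 + 10 * C) := by ring
          _ ≤ c := hεc
      have e14 : t ^ 2 * (ε * (ε * (18 + 8 * C) + 2 * C)) ≤ t ^ 2 * c :=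
        mul_le_mul_of_nonneg_left e13 ht2.le
      refine h.ge_of_nonpos ?_ ht10 ?_
      · nlinarith
      · rw [he']; linarith
    · -- upper bound
      have h1 := h.ray2 (l := 0) le_rfl ht (by nlinarith)
      have hKt' : K * t ∈ Icc 0 Real.pi := ⟨by positivity, by linarith⟩
      have h2 := h.h8 (K * t) t hKt' ht10
      have h3 := Real.cos_le_one_sub_mul_cos_sq (x := K * t)
        (by rw [abs_of_nonneg hKt'.1]; exact hKt'.2)
      have h4 : c * (2 / Real.pi ^ 2 * (K * t) ^ 2) ≤ c * (1 - Real.cos (K * t)) :=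
        mul_le_mul_of_nonneg_left (by linarith) hc.le
      have h5 : (10 + 6 * C) * t ^ 2 ≤ c * (2 / Real.pi ^ 2 * (K * t) ^ 2) := by
        calc (10 + 6 * C) * t ^ 2 ≤ (c * (2 / Real.pi ^ 2) * K ^ 2) * t ^ 2 :=
              mul_le_mul_of_nonneg_right hKc ht2.le
          _ = _ := by ring
      have h6 := (abs_le.1 h1).1
      rw [zero_mul] at h6
      have h7 : β t * t ^ 2 ≤ (16 + 8 * C) * t ^ 2 := mul_le_mul_of_nonneg_right hb.le ht2.le
      refine h.le_of_nonneg hKt'.1 ht10 ?_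
      nlinarith

/-- (b): `β → ∞` at `0+` -/
lemma beta_top (h : LC H HX HT β a C c ρ₀ δ) : Tendsto β (𝓝[>] 0) atTop := by
  obtain ⟨ε, K, d, hε0, hε1, hK2, hd0, hd1, hdδ, hdπ, hdρ, hcone⟩ := h.cone
  have hC := h.hC
  have hc := h.hc
  have hpi := Real.pi_pos
  set κ : ℝ := 2 * ε / (Real.pi * (2 + K ^ 2)) with hκ
  have hκ0 : 0 < κ := by positivity
  have key : ∀ X, 0 < X → X < d → 2 * c * κ * Real.log (d / X) - 2 * (1 + 2 * C) ≤ β X := by
    intro X hX hXd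
    set g : ℝ → ℝ := fun τ => Real.sin (a τ) / (τ ^ 2 + X ^ 2 + (a τ) ^ 2) with hg
    have hgm : Measurable g := by
      have := h.ha.mono.measurable
      exact (Real.measurable_sin.comp this).div ((((measurable_id.pow_const 2)).add_const _).add
        (this.pow_const 2))
    have hgb : ∀ τ, ‖g τ‖ ≤ 1 / X ^ 2 := by
      intro τ
      rw [hg, Real.norm_eq_abs, abs_div]
      have h1 : 0 < X ^ 2 := by positivity
      have h2 : X ^ 2 ≤ |τ ^ 2 + X ^ 2 + (a τ) ^ 2| := by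
        rw [abs_of_nonneg (by positivity)]
        nlinarith [sq_nonneg τ, sq_nonneg (a τ)]
      exact div_le_div₀ zero_le_one (Real.abs_sin_le_one _) h1 h2
    have hgi : ∀ u v : ℝ, IntervalIntegrable g volume u v := by
      intro u v
      rw [intervalIntegrable_iff]
      exact Measure.integrableOn_of_bounded (by simp [uIoc])
        hgm.aestronglyMeasurable (Eventually.of_forall hgb)
    have hg0 : ∀ τ, 0 ≤ g τ := fun τ =>
      div_nonneg (Real.sin_nonneg_of_nonneg_of_le_pi (h.ha.nonneg τ) (h.ha.le_pi τ))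
        (by positivity)
    have h1 : (∫ τ in X..d, κ * τ⁻¹) ≤ ∫ τ in X..d, g τ := by
      refine intervalIntegral.integral_mono_on hXd.le ?_ (hgi _ _) ?_
      · refine (ContinuousOn.intervalIntegrable ?_)
        refine continuousOn_const.mul (continuousOn_id.inv₀ ?_)
        intro x hx
        rw [uIcc_of_le hXd.le] at hx
        exact (hX.trans_le hx.1).ne'
      · intro τ hτ
        have hτ0 : 0 < τ := hX.trans_le hτ.1
        obtain ⟨hc1, hc2⟩ := hcone τ hτ0 hτ.2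
        have ha0 : 0 ≤ a τ := h.ha.nonneg τ
        have haπ : a τ ≤ Real.pi / 2 :=
          hc2.trans ((mul_le_mul_of_nonneg_left hτ.2 (by linarith)).trans hdπ)
        have hs := Real.mul_le_sin ha0 haπ
        have hs2 : 2 / Real.pi * (ε * τ) ≤ Real.sin (a τ) :=
          (mul_le_mul_of_nonneg_left hc1 (by positivity)).trans hs
        have hden : τ ^ 2 + X ^ 2 + (a τ) ^ 2 ≤ (2 + K ^ 2) * τ ^ 2 := by
          have h1 : X ^ 2 ≤ τ ^ 2 := by nlinarith [hτ.1]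
          have h2 : (a τ) ^ 2 ≤ (K * τ) ^ 2 := by nlinarith
          nlinarith
        have hden0 : 0 < τ ^ 2 + X ^ 2 + (a τ) ^ 2 := by positivity
        calc κ * τ⁻¹ = (2 / Real.pi * (ε * τ)) / ((2 + K ^ 2) * τ ^ 2) := by
              rw [hκ]; field_simp
          _ ≤ Real.sin (a τ) / (τ ^ 2 + X ^ 2 + (a τ) ^ 2) :=
              div_le_div₀ (le_trans (by positivity) hs2) hs2 hden0 hden
    have h2 : (∫ τ in X..d, κ * τ⁻¹) = κ * Real.log (d / X) := by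
      rw [intervalIntegral.integral_const_mul, integral_inv_of_pos hX hd0]
    have h3 : 0 ≤ ∫ τ in d..1, g τ := intervalIntegral.integral_nonneg hd1 fun τ _ => hg0 τ
    have h4 : (∫ τ in X..1, g τ) = (∫ τ in X..d, g τ) + ∫ τ in d..1, g τ :=
      (intervalIntegral.integral_add_adjacent_intervals (hgi _ _) (hgi _ _)).symm
    have h5 := h.h10 X hX (by linarith)
    have h6 : κ * Real.log (d / X) ≤ ∫ τ in X..1, g τ := by rw [h4]; linarith
    have h7 : c * X ^ 2 * (κ * Real.log (d / X)) ≤ H X 0 :=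
      (mul_le_mul_of_nonneg_left h6 (by positivity)).trans h5
    have hXρ : X ≤ ρ₀ := by nlinarith
    have hsq : √(X ^ 2 + 0 ^ 2) = X := by
      rw [show X ^ 2 + (0:ℝ) ^ 2 = X ^ 2 by ring, Real.sqrt_sq hX.le]
    have h8 := h.ray (X := X) (t := 0) (by positivity) (by rw [hsq]; exact hXρ)
    rw [hsq] at h8
    have h9 := (abs_le.1 h8).2
    have hX2 : 0 < X ^ 2 := by positivity
    have h10 : (2 * c * κ * Real.log (d / X) - 2 * (1 + 2 * C)) * X ^ 2 ≤ β X * X ^ 2 := by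
      nlinarith
    exact le_of_mul_le_mul_right h10 hX2
  have hlim : Tendsto (fun X : ℝ => 2 * c * κ * Real.log (d / X) - 2 * (1 + 2 * C)) (𝓝[>] 0) atTop := by
    refine tendsto_atTop_add_const_right _ _ (Tendsto.const_mul_atTop (by positivity) ?_)
    have h1 : Tendsto (fun X : ℝ => Real.log d + -Real.log X) (𝓝[>] 0) atTop :=
      tendsto_atTop_add_const_left _ _ (tendsto_neg_atBot_atTop.comp Real.tendsto_log_nhdsGT_zero)
    refine h1.congr' ?_
    filter_upwards [self_mem_nhdsWithin] with X hX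
    rw [Real.log_div hd0.ne' (ne_of_gt hX)]; ring
  refine tendsto_atTop_mono' _ ?_ hlim
  filter_upwards [Ioo_mem_nhdsGT hd0] with X hX
  exact key X hX.1 hX.2

/-- (c): `a(t)/t → 1` -/
lemma ratio (h : LC H HX HT β a C c ρ₀ δ) : Tendsto (fun t => a t / t) (𝓝[>] 0) (𝓝 1) := by
  have hC := h.hC
  have hρ := h.hρ₀
  have hpi := Real.pi_gt_three
  rw [Metric.tendsto_nhds]
  intro η' hη'
  set η : ℝ := min (η' / 2) (1 / 2) with hη
  have hη0 : 0 < η := by positivity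
  have hη1 : η ≤ 1 / 2 := min_le_right _ _
  have hη2 : η < η' := lt_of_le_of_lt (min_le_left _ _) (by linarith)
  have hsmall : ∀ᶠ t in 𝓝[>] (0:ℝ), t < min (ρ₀ / 3) 1 :=
    mem_nhdsWithin_of_mem_nhds (Iio_mem_nhds (by positivity))
  filter_upwards [self_mem_nhdsWithin, hsmall,
    (tendsto_atTop.1 h.beta_top) (2 * (20 + 10 * C) / η)] with t ht ht1 hβt
  have ht : 0 < t := ht
  have ht2 : 0 < t ^ 2 := by positivity
  have htρ : 3 * t ≤ ρ₀ := by
    have := lt_of_lt_of_le ht1 (min_le_left _ _); linarith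
  have ht10 : t ∈ Icc (0:ℝ) 10 := ⟨ht.le, by
    have := lt_of_lt_of_le ht1 (min_le_right _ _); linarith⟩
  have ht11 : t < 1 := lt_of_lt_of_le ht1 (min_le_right _ _)
  have hβη : 2 * (20 + 10 * C) ≤ β t * η := by rwa [div_le_iff₀ hη0] at hβt
  have hβ0 : 0 < β t := by
    by_contra hcon
    push Not at hcon
    nlinarith
  have hup : a t ≤ (1 + η) * t := by
    have h1 := h.ray2 (l := 1 + η) (by positivity) ht (by nlinarith)
    refine h.le_of_nonneg (by positivity) ht10 ?_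
    have h2 := (abs_le.1 h1).1
    have h3 : (2 + 2 * C + (1 + η)) * ((1 + η) ^ 2 + 1) ≤ (4 + 2 * C) * 5 :=
      mul_le_mul (by linarith) (by nlinarith) (by positivity) (by positivity)
    have h4 : (2 + 2 * C + (1 + η)) * ((1 + η) ^ 2 + 1) * t ^ 2 ≤ (4 + 2 * C) * 5 * t ^ 2 :=
      mul_le_mul_of_nonneg_right h3 ht2.le
    have h5 : (4 + 2 * C) * 5 ≤ β t * (((1 + η) ^ 2 - 1) / 2) := by
      have : β t * η ≤ β t * (((1 + η) ^ 2 - 1) / 2) :=
        mul_le_mul_of_nonneg_left (by nlinarith) hβ0.le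
      linarith
    have h6 : (4 + 2 * C) * 5 * t ^ 2 ≤ β t * (((1 + η) ^ 2 - 1) / 2) * t ^ 2 :=
      mul_le_mul_of_nonneg_right h5 ht2.le
    linarith
  have hlo : (1 - η) * t ≤ a t := by
    have h1 := h.ray2 (l := 1 - η) (by linarith) ht (by nlinarith)
    refine h.ge_of_nonpos (by nlinarith) ht10 ?_
    have h2 := (abs_le.1 h1).2
    have h3 : (2 + 2 * C + (1 - η)) * ((1 - η) ^ 2 + 1) ≤ (4 + 2 * C) * 5 :=
      mul_le_mul (by linarith) (by nlinarith) (by positivity) (by positivity)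
    have h4 : (2 + 2 * C + (1 - η)) * ((1 - η) ^ 2 + 1) * t ^ 2 ≤ (4 + 2 * C) * 5 * t ^ 2 :=
      mul_le_mul_of_nonneg_right h3 ht2.le
    have h5 : β t * (((1 - η) ^ 2 - 1) / 2) ≤ -((4 + 2 * C) * 5) := by
      have : β t * (((1 - η) ^ 2 - 1) / 2) ≤ β t * (-(η / 2)) :=
        mul_le_mul_of_nonneg_left (by nlinarith) hβ0.le
      linarith
    have h6 : β t * (((1 - η) ^ 2 - 1) / 2) * t ^ 2 ≤ -((4 + 2 * C) * 5) * t ^ 2 :=
      mul_le_mul_of_nonneg_right h5 ht2.le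
    linarith
  rw [Real.dist_eq]
  have h1 : a t / t ≤ 1 + η := by rw [div_le_iff₀ ht]; exact hup
  have h2 : 1 - η ≤ a t / t := by rw [le_div_iff₀ ht]; exact hlo
  refine lt_of_le_of_lt (abs_le.2 ⟨by linarith, by linarith⟩) hη2

lemma deriv_X (h : LC H HX HT β a C c ρ₀ δ) (X t : ℝ) : HasDerivAt (fun X => H X t) (HX X t) X := by
  have := h.deriv_curve (hasDerivAt_id X) (hasDerivAt_const X t)
  simpa using this

/-- facts on a punctured neighbourhood of `0` -/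
lemma small (h : LC H HX HT β a C c ρ₀ δ) : ∃ d : ℝ, 0 < d ∧ d < 10 ∧ 3 * d ≤ ρ₀ ∧
    ∀ t, 0 < t → t < d → t / 2 ≤ a t ∧ a t ≤ 2 * t ∧ a t < Real.pi ∧ 0 < HX (a t) t ∧
      H (a t) t = 0 := by
  have hC := h.hC
  have hρ := h.hρ₀
  have hpi := Real.pi_gt_three
  have hsmall : ∀ᶠ t in 𝓝[>] (0:ℝ), t < min (ρ₀ / 3) 1 :=
    mem_nhdsWithin_of_mem_nhds (Iio_mem_nhds (by positivity))
  have hev : ∀ᶠ t in 𝓝[>] (0:ℝ), t / 2 ≤ a t ∧ a t ≤ 2 * t ∧ a t < Real.pi ∧ 0 < HX (a t) t ∧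
      H (a t) t = 0 := by
    filter_upwards [self_mem_nhdsWithin, hsmall, (tendsto_atTop.1 h.beta_top) (4 + 6 * C),
      h.ratio.eventually (Ioo_mem_nhds (show (1:ℝ) / 2 < 1 by norm_num)
        (show (1:ℝ) < 2 by norm_num))] with t ht ht1 hβt hrat
    have ht : 0 < t := ht
    have htρ : 3 * t ≤ ρ₀ := by
      have := lt_of_lt_of_le ht1 (min_le_left _ _); linarith
    have ht11 : t < 1 := lt_of_lt_of_le ht1 (min_le_right _ _)
    have ht10 : t ∈ Icc (0:ℝ) 10 := ⟨ht.le, by linarith⟩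
    have h1 : t / 2 ≤ a t := by
      have := hrat.1.le; rw [le_div_iff₀ ht] at this; linarith
    have h2 : a t ≤ 2 * t := by
      have := hrat.2.le; rwa [div_le_iff₀ ht] at this
    have h3 : a t < Real.pi := by linarith
    have ha0 : 0 < a t := by linarith
    have hr0 : 0 < (a t) ^ 2 + t ^ 2 := by positivity
    have hr1 : t ≤ √((a t) ^ 2 + t ^ 2) := Real.le_sqrt_of_sq_le (by nlinarith [sq_nonneg (a t)])
    have hr2 : √((a t) ^ 2 + t ^ 2) ≤ 3 * t := by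
      rw [Real.sqrt_le_left (by positivity)]
      nlinarith
    have hrρ : √((a t) ^ 2 + t ^ 2) ≤ ρ₀ := hr2.trans htρ
    refine ⟨h1, h2, h3, ?_, ?_⟩
    · have e1 := (abs_le.1 (h.hX (a t) t hr0 hrρ)).1
      have e2 := (abs_le.1 (h.cmp ht hr1 hrρ)).2
      set r := √((a t) ^ 2 + t ^ 2)
      have e4 : r / t ≤ 3 := by rw [div_le_iff₀ ht]; exact hr2
      have e5 : 1 + 6 * C ≤ β r := by linarith
      have e6 : t / 2 * (1 + 6 * C) ≤ a t * β r :=
        mul_le_mul h1 e5 (by positivity) ha0.le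
      have e7 : C * r ≤ C * (3 * t) := mul_le_mul_of_nonneg_left hr2 hC.le
      linarith
    · have hcont : ContinuousAt (fun X => H X t) (a t) := (h.deriv_X (a t) t).continuousAt
      apply le_antisymm
      · by_contra hcon
        push Not at hcon
        have e1 : ∀ᶠ X in 𝓝[<] (a t), 0 < H X t :=
          (hcont.eventually (lt_mem_nhds hcon)).filter_mono nhdsWithin_le_nhds
        obtain ⟨X, hX1, hX2⟩ := (e1.and (Ioo_mem_nhdsLT ha0)).exists
        exact absurd (h.hneg X t hX2.1.le ht10 hX2.2) (not_lt.2 hX1.le)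
      · by_contra hcon
        push Not at hcon
        have e1 : ∀ᶠ X in 𝓝[>] (a t), H X t < 0 :=
          (hcont.eventually (gt_mem_nhds hcon)).filter_mono nhdsWithin_le_nhds
        obtain ⟨X, hX1, hX2⟩ := (e1.and (Ioo_mem_nhdsGT h3)).exists
        exact absurd (h.hpos X t hX2.2.le ht10 hX2.1) (not_lt.2 hX1.le)
  obtain ⟨u, hu, hsub⟩ := (mem_nhdsGT_iff_exists_Ioo_subset).1 hev
  have hu0 : 0 < u := hu
  refine ⟨min u (min 1 (ρ₀ / 3)), by positivity, ?_, ?_, ?_⟩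
  · calc _ ≤ min 1 (ρ₀ / 3) := min_le_right _ _
      _ ≤ 1 := min_le_left _ _
      _ < 10 := by norm_num
  · have : min u (min 1 (ρ₀ / 3)) ≤ ρ₀ / 3 := (min_le_right _ _).trans (min_le_right _ _)
    linarith
  · intro t ht htd
    exact hsub ⟨ht, lt_of_lt_of_le htd (min_le_left _ _)⟩

/-- (e): derivative of `a` at interior points -/
lemma hasDerivAt_a (h : LC H HX HT β a C c ρ₀ δ) {t₀ : ℝ} (ht0 : 0 < t₀) (ht1 : t₀ < 10)
    (hapos : 0 < a t₀) (haπ : a t₀ < Real.pi) (hp : 0 < HX (a t₀) t₀) (hz : H (a t₀) t₀ = 0) :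
    HasDerivAt a (-HT (a t₀) t₀ / HX (a t₀) t₀) t₀ := by
  set p := HX (a t₀) t₀ with hpdef
  set q := HT (a t₀) t₀ with hqdef
  have hline : ∀ m : ℝ, HasDerivAt (fun t => H (a t₀ + m * (t - t₀)) t) (p * m + q) t₀ := by
    intro m
    have hu : HasDerivAt (fun t : ℝ => a t₀ + m * (t - t₀)) m t₀ := by
      simpa using (((hasDerivAt_id t₀).sub_const t₀).const_mul m).const_add (a t₀)
    have := h.deriv_curve hu (hasDerivAt_id t₀)
    simpa [hpdef, hqdef] using this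
  have hrange : ∀ᶠ t in 𝓝[≠] t₀, t ∈ Icc (0:ℝ) 10 :=
    mem_nhdsWithin_of_mem_nhds (Icc_mem_nhds ht0 ht1)
  have hlin : ∀ m : ℝ, ∀ᶠ t in 𝓝[≠] t₀, 0 ≤ a t₀ + m * (t - t₀) ∧
      a t₀ + m * (t - t₀) ≤ Real.pi := by
    intro m
    have hcont : ContinuousAt (fun t : ℝ => a t₀ + m * (t - t₀)) t₀ := by fun_prop
    have h1 : ∀ᶠ t in 𝓝 t₀, a t₀ + m * (t - t₀) ∈ Ioo 0 Real.pi :=
      hcont.eventually_mem (Ioo_mem_nhds (by simpa using hapos) (by simpa using haπ))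
    exact (h1.mono fun t ht => ⟨ht.1.le, ht.2.le⟩).filter_mono nhdsWithin_le_nhds
  have hupper : ∀ m : ℝ, 0 < p * m + q → ∀ᶠ t in 𝓝[≠] t₀, slope a t₀ t ≤ m := by
    intro m hm
    have h1 := (hasDerivAt_iff_tendsto_slope.1 (hline m)).eventually (lt_mem_nhds hm)
    filter_upwards [h1, hrange, hlin m, self_mem_nhdsWithin] with t h1 h2 h3 hne
    rw [slope_def_field] at h1 ⊢
    simp only [sub_self, mul_zero, add_zero, hz, sub_zero] at h1
    rcases lt_or_gt_of_ne hne with hlt | hgt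
    · have h4 : H (a t₀ + m * (t - t₀)) t < 0 := by
        by_contra hcon
        push Not at hcon
        exact absurd h1 (not_lt.2 (div_nonpos_of_nonneg_of_nonpos hcon (by linarith)))
      have h5 := h.ge_of_nonpos h3.2 h2 h4.le
      rw [div_le_iff_of_neg (by linarith)]
      linarith
    · have h4 : 0 < H (a t₀ + m * (t - t₀)) t := by
        have := mul_pos h1 (sub_pos.2 hgt)
        rwa [div_mul_cancel₀ _ (sub_pos.2 hgt).ne'] at this
      have h5 := h.le_of_nonneg h3.1 h2 h4.le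
      rw [div_le_iff₀ (by linarith)]
      linarith
  have hlower : ∀ m : ℝ, p * m + q < 0 → ∀ᶠ t in 𝓝[≠] t₀, m ≤ slope a t₀ t := by
    intro m hm
    have h1 := (hasDerivAt_iff_tendsto_slope.1 (hline m)).eventually (gt_mem_nhds hm)
    filter_upwards [h1, hrange, hlin m, self_mem_nhdsWithin] with t h1 h2 h3 hne
    rw [slope_def_field] at h1 ⊢
    simp only [sub_self, mul_zero, add_zero, hz, sub_zero] at h1
    rcases lt_or_gt_of_ne hne with hlt | hgt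
    · have h4 : 0 < H (a t₀ + m * (t - t₀)) t := by
        by_contra hcon
        push Not at hcon
        exact absurd h1 (not_lt.2 (div_nonneg_of_nonpos hcon (by linarith)))
      have h5 := h.le_of_nonneg h3.1 h2 h4.le
      rw [le_div_iff_of_neg (by linarith)]
      linarith
    · have h4 : H (a t₀ + m * (t - t₀)) t < 0 := by
        have := mul_neg_of_neg_of_pos h1 (sub_pos.2 hgt)
        rwa [div_mul_cancel₀ _ (sub_pos.2 hgt).ne'] at this
      have h5 := h.ge_of_nonpos h3.2 h2 h4.le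
      rw [le_div_iff₀ (by linarith)]
      linarith
  refine hasDerivAt_iff_tendsto_slope.2 (tendsto_order.2 ⟨fun m hm => ?_, fun m hm => ?_⟩)
  · obtain ⟨m', hm1, hm2⟩ := exists_between hm
    have : p * m' + q < 0 := by
      rw [lt_div_iff₀ hp] at hm2; linarith
    filter_upwards [hlower m' this] with t ht
    exact lt_of_lt_of_le hm1 ht
  · obtain ⟨m', hm1, hm2⟩ := exists_between hm
    have : 0 < p * m' + q := by
      rw [div_lt_iff₀ hp] at hm1; linarith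
    filter_upwards [hupper m' this] with t ht
    exact lt_of_le_of_lt ht hm2

/-- the derivative tends to `1` -/
lemma slope_lim (h : LC H HX HT β a C c ρ₀ δ) :
    Tendsto (fun t => -HT (a t) t / HX (a t) t) (𝓝[>] 0) (𝓝 1) := by
  obtain ⟨d, hd0, hd10, hdρ, hd⟩ := h.small
  have hC := h.hC
  set r : ℝ → ℝ := fun t => √((a t) ^ 2 + t ^ 2) with hr
  have hev : ∀ᶠ t in 𝓝[>] (0:ℝ), t ∈ Ioo 0 d := Ioo_mem_nhdsGT hd0
  have hrb : ∀ᶠ t in 𝓝[>] (0:ℝ), 0 < t ∧ 0 < r t ∧ r t ≤ 3 * t ∧ r t ≤ ρ₀ ∧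
      0 < (a t) ^ 2 + t ^ 2 := by
    filter_upwards [hev] with t ht
    obtain ⟨h1, h2, -, -, -⟩ := hd t ht.1 ht.2
    have ht0 := ht.1
    have hr0 : 0 < (a t) ^ 2 + t ^ 2 := by positivity
    have hr2 : r t ≤ 3 * t := by
      rw [hr, Real.sqrt_le_left (by positivity)]
      nlinarith
    exact ⟨ht0, Real.sqrt_pos.2 hr0, hr2, hr2.trans (by linarith [ht.2]), hr0⟩
  have hr_lim : Tendsto r (𝓝[>] 0) (𝓝[>] 0) := by
    refine tendsto_nhdsWithin_iff.2 ⟨?_, hrb.mono fun t ht => ht.2.1⟩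
    have h3 : Tendsto (fun t : ℝ => 3 * t) (𝓝[>] 0) (𝓝 0) := by
      have : Tendsto (fun t : ℝ => 3 * t) (𝓝 0) (𝓝 (3 * 0)) := tendsto_id.const_mul 3
      rw [mul_zero] at this
      exact this.mono_left nhdsWithin_le_nhds
    exact tendsto_of_tendsto_of_tendsto_of_le_of_le' tendsto_const_nhds h3
      (hrb.mono fun t ht => ht.2.1.le) (hrb.mono fun t ht => ht.2.2.1)
  have hb : Tendsto (fun t => β (r t)) (𝓝[>] 0) atTop := h.beta_top.comp hr_lim
  have hbinv : Tendsto (fun t => 3 * C * (β (r t))⁻¹) (𝓝[>] 0) (𝓝 0) := by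
    simpa using (hb.inv_tendsto_atTop).const_mul (3 * C)
  have hb0 : ∀ᶠ t in 𝓝[>] (0:ℝ), 0 < β (r t) := hb.eventually_gt_atTop 0
  have e1 : Tendsto (fun t => (HX (a t) t - a t * β (r t)) / (t * β (r t))) (𝓝[>] 0) (𝓝 0) := by
    refine squeeze_zero_norm' ?_ hbinv
    filter_upwards [hrb, hb0] with t ht hbt
    rw [Real.norm_eq_abs, abs_div, abs_of_pos (mul_pos ht.1 hbt), div_le_iff₀ (mul_pos ht.1 hbt)]
    calc _ ≤ C * r t := h.hX (a t) t ht.2.2.2.2 ht.2.2.2.1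
      _ ≤ C * (3 * t) := mul_le_mul_of_nonneg_left ht.2.2.1 hC.le
      _ = _ := by field_simp
  have e2 : Tendsto (fun t => (HT (a t) t + t * β (r t)) / (t * β (r t))) (𝓝[>] 0) (𝓝 0) := by
    refine squeeze_zero_norm' ?_ hbinv
    filter_upwards [hrb, hb0] with t ht hbt
    rw [Real.norm_eq_abs, abs_div, abs_of_pos (mul_pos ht.1 hbt), div_le_iff₀ (mul_pos ht.1 hbt)]
    calc _ ≤ C * r t := h.hT (a t) t ht.2.2.2.2 ht.2.2.2.1
      _ ≤ C * (3 * t) := mul_le_mul_of_nonneg_left ht.2.2.1 hC.le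
      _ = _ := by field_simp
  have e3 : Tendsto (fun t => HX (a t) t / (t * β (r t))) (𝓝[>] 0) (𝓝 1) := by
    have := e1.add h.ratio
    rw [zero_add] at this
    refine this.congr' ?_
    filter_upwards [hrb, hb0] with t ht hbt
    have := ht.1.ne'
    field_simp
    ring
  have e4 : Tendsto (fun t => -HT (a t) t / (t * β (r t))) (𝓝[>] 0) (𝓝 1) := by
    have := (tendsto_const_nhds (x := (1:ℝ)) (f := 𝓝[>] (0:ℝ))).sub e2
    rw [sub_zero] at this
    refine this.congr' ?_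
    filter_upwards [hrb, hb0] with t ht hbt
    have := ht.1.ne'
    field_simp
    ring
  have e5 := e4.div e3 one_ne_zero
  rw [div_one] at e5
  refine e5.congr' ?_
  filter_upwards [hrb, hb0] with t ht hbt
  have h1 : t * β (r t) ≠ 0 := (mul_pos ht.1 hbt).ne'
  simp only [Pi.div_apply]
  rw [div_div_div_cancel_right₀ h1]

end LC

theorem local_corner (H HX HT : ℝ → ℝ → ℝ) (β a : ℝ → ℝ) (C c ρ₀ δ : ℝ)
    (hC : 0 < C) (hc : 0 < c) (hρ₀ : 0 < ρ₀) (hδ : 0 < δ)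
    (hH : ∀ X t, HasFDerivAt (fun q : ℝ × ℝ => H q.1 q.2)
      (HX X t • ContinuousLinearMap.fst ℝ ℝ ℝ + HT X t • ContinuousLinearMap.snd ℝ ℝ ℝ) (X, t))
    (hHX : Continuous (fun q : ℝ × ℝ => HX q.1 q.2))
    (hHT : Continuous (fun q : ℝ × ℝ => HT q.1 q.2))
    (h00 : H 0 0 = 0)
    (hX : ∀ X t, 0 < X ^ 2 + t ^ 2 → √(X ^ 2 + t ^ 2) ≤ ρ₀ →
      |HX X t - X * β (√(X ^ 2 + t ^ 2))| ≤ C * √(X ^ 2 + t ^ 2))
    (hT : ∀ X t, 0 < X ^ 2 + t ^ 2 → √(X ^ 2 + t ^ 2) ≤ ρ₀ →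
      |HT X t + t * β (√(X ^ 2 + t ^ 2))| ≤ C * √(X ^ 2 + t ^ 2))
    (hβ : ∀ r s, 0 < r → r ≤ ρ₀ → 0 < s → s ≤ 1 → |β (s * r) - β r| ≤ Real.log (1 / s))
    (ha : Prof a)
    (hneg : ∀ X t, 0 ≤ X → t ∈ Icc (0:ℝ) 10 → X < a t → H X t < 0)
    (hpos : ∀ X t, X ≤ Real.pi → t ∈ Icc (0:ℝ) 10 → a t < X → 0 < H X t)
    (h8 : ∀ X t, X ∈ Icc 0 Real.pi → t ∈ Icc (0:ℝ) 10 → c * (1 - Real.cos X) ≤ H X t - H 0 t)
    (h9 : ∀ t ∈ Icc 0 δ, H 0 t ≤ -(c * t ^ 2))
    (h10 : ∀ X, 0 < X → X ≤ 1 →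
      c * X ^ 2 * ∫ τ in X..1, Real.sin (a τ) / (τ ^ 2 + X ^ 2 + (a τ) ^ 2) ≤ H X 0) :
    ∃ (tt : ℝ) (a' : ℝ → ℝ), 0 < tt ∧ tt < 10 ∧ a 0 = 0 ∧ a' 0 = 1 ∧
      (∀ t ∈ Icc 0 tt, HasDerivWithinAt a (a' t) (Icc 0 tt) t) ∧ ContinuousOn a' (Icc 0 tt) ∧
      (∀ t ∈ Ioc 0 tt, 0 < a t) := by
  have h : LC H HX HT β a C c ρ₀ δ :=
    ⟨hC, hc, hρ₀, hδ, hH, hHX, hHT, h00, hX, hT, hβ, ha, hneg, hpos, h8, h9, h10⟩
  obtain ⟨d, hd0, hd10, hdρ, hd⟩ := h.small
  have ha0 : a 0 = 0 := by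
    refine le_antisymm (le_of_forall_pos_le_add fun ε hε => ?_) (ha.nonneg 0)
    set t := min (d / 2) (ε / 2) with ht
    have ht0 : 0 < t := by positivity
    have htd : t < d := lt_of_le_of_lt (min_le_left _ _) (by linarith)
    have h1 := (hd t ht0 htd).2.1
    have h2 := ha.mono ht0.le
    have h3 : t ≤ ε / 2 := min_le_right _ _
    linarith
  have hder : ∀ t ∈ Ioo 0 d, HasDerivAt a (-HT (a t) t / HX (a t) t) t := by
    intro t ht
    obtain ⟨h1, h2, h3, h4, h5⟩ := hd t ht.1 ht.2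
    have ht0 := ht.1
    exact h.hasDerivAt_a ht.1 (ht.2.trans hd10) (by linarith) h3 h4 h5
  refine ⟨d / 2, fun t => if t = 0 then 1 else -HT (a t) t / HX (a t) t, by positivity,
    by linarith, ha0, by simp, ?_, ?_, ?_⟩
  · intro t ht
    rcases eq_or_lt_of_le ht.1 with h0 | h0
    · subst h0
      simp only [if_true]
      have h1 : Tendsto (slope a 0) (𝓝[>] 0) (𝓝 1) := by
        refine h.ratio.congr' (Eventually.of_forall fun t => ?_)
        rw [slope_def_field, ha0, sub_zero, sub_zero]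
      have h2 : HasDerivWithinAt a 1 (Ioi 0) 0 := by
        rw [hasDerivWithinAt_iff_tendsto_slope' self_notMem_Ioi]
        exact h1
      exact (h2.Ici_of_Ioi).mono Icc_subset_Ici_self
    · simp only [h0.ne', if_false]
      exact (hder t ⟨h0, by linarith [ht.2]⟩).hasDerivWithinAt
  · intro t ht
    rcases eq_or_lt_of_le ht.1 with h0 | h0
    · subst h0
      have h1 : Tendsto (fun t => if t = 0 then (1:ℝ) else -HT (a t) t / HX (a t) t)
          (𝓝[>] 0) (𝓝 1) := by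
        refine h.slope_lim.congr' ?_
        filter_upwards [self_mem_nhdsWithin] with t ht
        have : t ≠ 0 := ne_of_gt ht
        simp [this]
      have h2 : ContinuousWithinAt (fun t => if t = 0 then (1:ℝ) else -HT (a t) t / HX (a t) t)
          (Ioi 0) 0 := by
        unfold ContinuousWithinAt
        simpa using h1
      have h3 := continuousWithinAt_Ioi_iff_Ici.1 h2
      exact h3.mono Icc_subset_Ici_self
    · have ht' : t ∈ Ioo 0 d := ⟨h0, by linarith [ht.2]⟩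
      have hac : ContinuousAt a t := (hder t ht').continuousAt
      have hp := (hd t ht'.1 ht'.2).2.2.2.1
      have h1 : ContinuousAt (fun t => -HT (a t) t / HX (a t) t) t := by
        have e1 : ContinuousAt (fun t => HT (a t) t) t :=
          ContinuousAt.comp (g := fun q : ℝ × ℝ => HT q.1 q.2) (f := fun t => (a t, t))
            hHT.continuousAt (hac.prodMk continuousAt_id)
        have e2 : ContinuousAt (fun t => HX (a t) t) t :=
          ContinuousAt.comp (g := fun q : ℝ × ℝ => HX q.1 q.2) (f := fun t => (a t, t))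
            hHX.continuousAt (hac.prodMk continuousAt_id)
        exact e1.neg.div e2 hp.ne'
      refine (h1.congr ?_).continuousWithinAt
      filter_upwards [Ioi_mem_nhds h0] with s hs
      have : s ≠ 0 := ne_of_gt hs
      simp [this]
  · intro t ht
    have ht0 := ht.1
    have := (hd t ht.1 (by linarith [ht.2])).1
    linarith

end Pool.Agent.Helper54.VSCorner
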